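import Pool.Agent.helper66.LIN.Spec

set_option autoImplicit false

namespace LSH.Lin

open Set

theorem RGN_avs {P : Finset Pt} {L : Multiset (Pt × BT)} {σ : ℝ → ℝ} {u : Pt} {up : Bool} {c : ℝ}
    {p : Pt} (h : p ∈ avs P L σ u up c) :
    p ∈ P ∧ σ p.2 < p.1 ∧ p.1 ≤ c ∧ Vis L u p.2 ∧
      ((up = true ∧ u.2 < p.2) ∨ (up = false ∧ p.2 < u.2)) := by
  classical
  unfold avs at h
  rw [Finset.mem_filter] at h
  exact ⟨h.1, h.2.1, h.2.2.1, h.2.2.2.1, h.2.2.2.2⟩

/-- a height between `u` and a visible height is visible -/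
theorem RGN_vis {L : Multiset (Pt × BT)} {u : Pt} {a y : ℝ} (ha : Vis L u a)
    (hy : y ∈ uIcc u.2 a) : Vis L u y := by
  intro i hi hiu hh
  apply ha i hi hiu
  exact uIcc_subset_uIcc left_mem_uIcc hy hh

theorem RGN (hOB : OB_stmt) (hGTF : GTF_stmt) : RGN_stmt := by
  intro P L σ X u t up x₁ G hC hu hG e he z hz
  obtain ⟨g1, g2, -⟩ := hGTF
  have hl := hC.live (u, t) hu
  simp only at hl
  rcases List.mem_cons.1 he with he | he
  · -- the first edge
    have hr := RGN_avs (hG.pts _ (g1 G))
    obtain ⟨-, hr1, hr2, hr3, hr4⟩ := hr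
    have hv := hC.vis (u, t) hu G.root.2 hr3
    simp only at hv
    have hur : u.1 < G.root.1 := lt_of_le_of_lt hv hr1
    subst he
    rcases hz with ⟨-, hz⟩ | ⟨h, -⟩
    · rcases hz with ⟨h1, h2⟩ | ⟨h1, h2⟩
      · simp only at h1 h2
        rw [uIcc_of_le hur.le] at h2
        refine ⟨?_, h2.2.trans hr2, ?_⟩
        · rcases eq_or_lt_of_le h2.1 with h3 | h3
          · left
            exact Prod.ext h3.symm h1
          · right
            rw [h1, hl]
            exact h3
        · rw [h1]
          exact RGN_vis hr3 left_mem_uIcc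
      · simp only at h1 h2
        refine ⟨?_, by rw [h1]; exact hr2, RGN_vis hr3 h2⟩
        right
        by_cases h3 : z.2 = u.2
        · rw [h3, hl, h1]
          exact hur
        · have h4 : σ z.2 = σ G.root.2 := by
            apply hC.const
            intro i hi hh
            by_cases hiu : i.1 = u
            · rw [hiu] at hh
              exact h3 (eq_of_mem_uIcc_of_mem_uIcc h2 hh)
            · exact hr3 i hi hiu (uIcc_subset_uIcc h2 right_mem_uIcc hh)
          rw [h4, h1]
          exact hr1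
    · simp at h
  · -- the other edges
    obtain ⟨ha, hb⟩ := g2 G e he
    obtain ⟨-, a1, a2, a3, a4⟩ := RGN_avs (hG.pts _ ha)
    obtain ⟨-, b1, b2, b3, b4⟩ := RGN_avs (hG.pts _ hb)
    obtain ⟨z1, z2⟩ := hOB.1 e z hz
    have hsub : ∀ y ∈ uIcc e.a.2 e.b.2, y ∈ uIcc u.2 e.a.2 ∨ y ∈ uIcc u.2 e.b.2 := by
      intro y hy
      have := uIcc_subset_uIcc_union_uIcc (a := e.a.2) (b := u.2) (c := e.b.2) hy
      rcases this with h | h
      · left
        rw [uIcc_comm]
        exact h
      · right
        exact h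
    have hnu : u.2 ∉ uIcc e.a.2 e.b.2 := by
      intro h
      rw [mem_uIcc] at h
      rcases a4 with ⟨h1, h2⟩ | ⟨h1, h2⟩ <;> rcases b4 with ⟨h3, h4⟩ | ⟨h3, h4⟩
      · rcases h with h | h <;> linarith [h.1, h.2]
      · rw [h1] at h3
        exact absurd h3 (by simp)
      · rw [h1] at h3
        exact absurd h3 (by simp)
      · rcases h with h | h <;> linarith [h.1, h.2]
    have hno : ∀ i ∈ L, i.1.2 ∉ uIcc e.a.2 e.b.2 := by
      intro i hi hh
      by_cases hiu : i.1 = u
      · rw [hiu] at hh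
        exact hnu hh
      · rcases hsub _ hh with h | h
        · exact a3 i hi hiu h
        · exact b3 i hi hiu h
    have ha' : σ z.2 = σ e.a.2 := by
      apply hC.const
      intro i hi hh
      exact hno i hi (uIcc_subset_uIcc z2 left_mem_uIcc hh)
    have hb' : σ z.2 = σ e.b.2 := by
      apply hC.const
      intro i hi hh
      exact hno i hi (uIcc_subset_uIcc z2 right_mem_uIcc hh)
    rw [mem_uIcc] at z1
    refine ⟨Or.inr ?_, ?_, ?_⟩
    · rcases z1 with h | h
      · rw [ha']
        exact lt_of_lt_of_le a1 h.1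
      · rw [hb']
        exact lt_of_lt_of_le b1 h.1
    · rcases z1 with h | h
      · exact h.2.trans b2
      · exact h.2.trans a2
    · rcases hsub _ z2 with h | h
      · exact RGN_vis a3 h
      · exact RGN_vis b3 h

end LSH.Lin
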