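import Pool.Agent.helper66.LIN.Spec

set_option autoImplicit false

namespace LSH.Lin

/-- the branching case of `WTB`, numerical part -/
theorem WTB_num (hSQI : SQI_stmt) (x y l : ℕ) (hy : 1 ≤ y) (hyx : y ≤ x) (hl : 2 ^ l ≤ y)
    (ws wt sa sp tp ss ts : ℝ) (hsa : 2 * sa ≤ (l : ℝ) ^ 2 + 5 * l + 2) (hsp : sp ≤ 1 + (l : ℝ))
    (hsp0 : 0 ≤ sp)
    (hs : ws + sp ^ 2 ≤ ss + 137 * (y : ℝ) - 136 * √(y : ℝ))
    (ht : wt + tp ^ 2 ≤ ts + 137 * (x : ℝ) - 136 * √(x : ℝ)) :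
    (2 * ((sa + tp) * sp) + 1 + ws + wt) + (sp + 1) ^ 2 ≤
      (ss + ts + 1) + 137 * ((x : ℝ) + y) - 136 * √((x : ℝ) + y) := by
  have hy' : (0 : ℝ) < (y : ℝ) := by exact_mod_cast hy
  have hyx' : (y : ℝ) ≤ (x : ℝ) := by exact_mod_cast hyx
  have h1 := hSQI.1 (x : ℝ) (y : ℝ) hy' hyx'
  have h2 := hSQI.2 l
  have h3 : √((2 : ℝ) ^ l) ≤ √(y : ℝ) := by
    apply Real.sqrt_le_sqrt
    exact_mod_cast hl
  have hl0 : (0 : ℝ) ≤ (l : ℝ) := Nat.cast_nonneg l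
  have h4 : 2 * sa * sp ≤ ((l : ℝ) ^ 2 + 5 * l + 2) * (1 + l) := by
    calc 2 * sa * sp ≤ ((l : ℝ) ^ 2 + 5 * l + 2) * sp := mul_le_mul_of_nonneg_right hsa hsp0
      _ ≤ ((l : ℝ) ^ 2 + 5 * l + 2) * (1 + l) := mul_le_mul_of_nonneg_left hsp (by positivity)
  have h5 : (sp + 1) ^ 2 ≤ (2 + (l : ℝ)) ^ 2 := by
    apply pow_le_pow_left₀ (by linarith)
    linarith
  have h6 : 2 * (tp * sp) ≤ tp ^ 2 + sp ^ 2 := by nlinarith [sq_nonneg (tp - sp)]
  nlinarith [h1, h2, h3, h4, h5, h6, hs, ht]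

theorem WTB_lv (t : BT) : 1 ≤ t.lv := by
  induction t with
  | leaf => simp [BT.lv]
  | un t ih => simpa [BT.lv] using ih
  | br s t ihs iht => simp only [BT.lv]; omega

theorem WTB_main (hLGB : LGB_stmt) (hSQI : SQI_stmt) (hGTF : GTF_stmt) (t : BT) :
    (t.wt : ℝ) + (t.pl : ℝ) ^ 2 ≤ (t.size : ℝ) + 137 * (t.lv : ℝ) - 136 * √(t.lv : ℝ) := by
  have hb := hGTF.2.2.2.2.2.2.2
  induction t with
  | leaf => norm_num [BT.wt, BT.pl, BT.size, BT.lv]
  | un t ih =>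
    obtain ⟨_, _, hp, _⟩ := hb t
    have hp' : (1 : ℝ) ≤ (t.pl : ℝ) := by exact_mod_cast hp
    simp only [BT.wt, BT.pl, BT.size, BT.lv]
    push_cast
    nlinarith
  | br s t ihs iht =>
    have hs := WTB_lv s
    have hs2 := WTB_lv t
    have key : ∀ s t : BT, s.lv ≤ t.lv → 1 ≤ s.lv →
        (s.wt : ℝ) + (s.pl : ℝ) ^ 2 ≤ (s.size : ℝ) + 137 * (s.lv : ℝ) - 136 * √(s.lv : ℝ) →
        (t.wt : ℝ) + (t.pl : ℝ) ^ 2 ≤ (t.size : ℝ) + 137 * (t.lv : ℝ) - 136 * √(t.lv : ℝ) →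
        (2 * (((s.al : ℝ) + t.pl) * s.pl) + 1 + s.wt + t.wt) + ((s.pl : ℝ) + 1) ^ 2 ≤
          ((s.size : ℝ) + t.size + 1) + 137 * ((t.lv : ℝ) + s.lv) - 136 * √((t.lv : ℝ) + s.lv) := by
      intro s t hst h1 hs ht
      obtain ⟨l1, l2⟩ := hLGB s
      refine WTB_num hSQI t.lv s.lv (Nat.log 2 s.lv) h1 hst
        (Nat.pow_log_le_self 2 (by omega)) _ _ _ _ _ _ _ ?_ ?_ (Nat.cast_nonneg _) hs ht
      · exact_mod_cast l2
      · exact_mod_cast l1
    by_cases hst : s.lv ≤ t.lv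
    · have h := key s t hst hs ihs iht
      have e1 : (BT.br s t).pl = s.pl + 1 := by simp [BT.pl, hst]
      have e2 : (BT.br s t).mm = (s.al + t.pl) * s.pl + 1 := by
        simp only [BT.mm, BT.al, BT.pl, hst, if_true]
        congr 1
        congr 1
        omega
      have e3 : (BT.br s t).wt = 2 * ((s.al + t.pl) * s.pl) + 1 + s.wt + t.wt := by
        have : (BT.br s t).wt = 2 * (BT.br s t).mm - 1 + s.wt + t.wt := rfl
        rw [this, e2]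
        omega
      have e4 : (BT.br s t).size = s.size + t.size + 1 := rfl
      have e6 : (BT.br s t).lv = s.lv + t.lv := rfl
      rw [e3, e1, e4, e6]
      push_cast
      have e5 : (s.lv : ℝ) + t.lv = (t.lv : ℝ) + s.lv := by ring
      rw [e5]
      linarith
    · have hst' : t.lv ≤ s.lv := by omega
      have h := key t s hst' hs2 iht ihs
      have e1 : (BT.br s t).pl = t.pl + 1 := by simp [BT.pl, hst]
      have e2 : (BT.br s t).mm = (t.al + s.pl) * t.pl + 1 := by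
        simp only [BT.mm, BT.al, BT.pl, hst, if_false]
        congr 1
        congr 1
        omega
      have e3 : (BT.br s t).wt = 2 * ((t.al + s.pl) * t.pl) + 1 + s.wt + t.wt := by
        have : (BT.br s t).wt = 2 * (BT.br s t).mm - 1 + s.wt + t.wt := rfl
        rw [this, e2]
        omega
      have e4 : (BT.br s t).size = s.size + t.size + 1 := rfl
      have e6 : (BT.br s t).lv = s.lv + t.lv := rfl
      rw [e3, e1, e4, e6]
      push_cast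
      linarith

theorem WTB (hLGB : LGB_stmt) (hSQI : SQI_stmt) (hGTF : GTF_stmt) : WTB_stmt := by
  intro t
  have h := WTB_main hLGB hSQI hGTF t
  have hp : (1 : ℝ) ≤ (t.pl : ℝ) := by exact_mod_cast (hGTF.2.2.2.2.2.2.2 t).2.2.1
  have hl : (1 : ℝ) ≤ √(t.lv : ℝ) := by
    rw [Real.one_le_sqrt]
    exact_mod_cast WTB_lv t
  have h1 : (t.wt : ℝ) + 137 ≤ (t.size : ℝ) + 137 * (t.lv : ℝ) := by
    nlinarith
  exact_mod_cast h1

end LSH.Lin
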